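import Pool.Agent.H.MP_5011cf_an.B

set_option autoImplicit false

namespace Pool.Agent.Results.MP_5011cf_an.No
open Filter Topology Metric Set MeasureTheory Real

/-- The radial limit of `f'` at `exp (i θ)` equals `m θ` for almost every `θ` in `[0, 2 π)`. -/
def Rad (f : ℂ → ℂ) (m : ℝ → ℂ) : Prop :=
  ∀ᵐ θ : ℝ ∂(volume.restrict (Ico (0 : ℝ) (2 * π))),
    Tendsto (fun r : ℝ => deriv f (r * Complex.exp (θ * Complex.I))) (𝓝[<] 1) (𝓝 (m θ))

theorem result :
    (∃ m : ℝ → ℂ, Measurable m ∧ (∀ θ, m θ = 1 ∨ m θ = 2) ∧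
      ∀ f : ℂ → ℂ, DifferentiableOn ℂ f (ball 0 1) → InjOn f (ball 0 1) → ¬ Rad f m) ∧
    ∀ f : ℂ → ℂ, DifferentiableOn ℂ f (ball 0 1) → InjOn f (ball 0 1) → ¬ Rad f 0 := by
  have hB : Ico (0 : ℝ) (1 / 1000) ⊆ Ico 0 (2 * π) := Ico_subset_Ico_right (by linarith [pi_gt_three])
  refine ⟨⟨fun θ => if θ ∈ Ico (0 : ℝ) (1 / 1000) then 2 else 1,
    Measurable.ite measurableSet_Ico measurable_const measurable_const,
    fun θ => by simp only; split_ifs <;> simp, fun f hf hi h => ?_⟩, fun f hf hi h => ?_⟩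
  · have h1 := H.MP_5011cf_an.main hf hi 1 measurableSet_Ico hB (by simp)
      (((ae_restrict_iff' measurableSet_Ico).mp h).mono fun θ e e' => by
        simpa only [if_neg e'.2, H.MP_5011cf_an.ex] using e e'.1)
    have h2 := (ae_restrict_of_ae_restrict_of_subset hB h).and (ae_restrict_mem measurableSet_Ico)
    have : (ae (volume.restrict (Ico (0 : ℝ) (1 / 1000)))).NeBot := ae_restrict_neBot.mpr (by simp)
    obtain ⟨θ, h3, h4⟩ := h2.exists
    simp only [if_pos h4] at h3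
    refine absurd (tendsto_nhds_unique h3 (tendsto_const_nhds.congr' ?_)) (by norm_num : (2 : ℂ) ≠ 1)
    filter_upwards [Ioo_mem_nhdsLT one_pos] with r hr
    refine (h1 _ ?_).symm
    rw [mem_ball_zero_iff, norm_mul, Complex.norm_exp_ofReal_mul_I, mul_one, Complex.norm_real,
      Real.norm_of_nonneg hr.1.le]
    exact hr.2
  · exact (H.MP_5011cf_an.omit1 hf hi).1 (H.MP_5011cf_an.main hf hi 0 MeasurableSet.empty
      (empty_subset _) (by simp) (((ae_restrict_iff' measurableSet_Ico).mp h).mono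
        fun θ e e' => e e'.1) 0 (mem_ball_self one_pos))

end Pool.Agent.Results.MP_5011cf_an.No
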